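import Mathlib
import Pool.Agent.helper61.DL.Defs4

set_option autoImplicit false

/-! # Module VOL2: the normalised volume of a face is the sum over its maximal simplices -/

namespace Pool.Agent.helper77.DL

open Finset Filter Topology Pool.Agent.helper61.DL Pool.Agent.helper14.NS
open Pool.Agent.helper11.NSR (dt)

variable {n : ℕ} {ι : Type} [Fintype ι] [DecidableEq ι] {V : ι → Fin n →₀ ℕ} {om : ι → ℤ} {ε : ℚ}

/-- rational vectors that are linearly independent stay independent over the reals -/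
theorem li_cast {κ : Type} [Fintype κ] {n : ℕ} (hc : Fintype.card κ = n) (A : κ → Fin n → ℚ)
    (h : LinearIndependent ℚ A) : LinearIndependent ℝ (fun i j => ((A i j : ℚ) : ℝ)) := by
  classical
  let e : κ ≃ Fin n := Fintype.equivFinOfCardEq hc
  have h1 : LinearIndependent ℚ (fun i : Fin n => A (e.symm i)) := h.comp _ e.symm.injective
  let B : Matrix (Fin n) (Fin n) ℚ := Matrix.of fun i => A (e.symm i)
  have h2 : IsUnit B := Matrix.linearIndependent_rows_iff_isUnit.1 h1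
  have h3 : IsUnit (B.map (Rat.castHom ℝ)) := h2.map (RingHom.mapMatrix (Rat.castHom ℝ))
  have h4 : LinearIndependent ℝ (B.map (Rat.castHom ℝ)).row :=
    Matrix.linearIndependent_rows_iff_isUnit.2 h3
  have h5 := h4.comp _ e.injective
  have e1 : (fun i j => ((A i j : ℚ) : ℝ)) = (B.map (Rat.castHom ℝ)).row ∘ e := by
    funext i j
    show ((A i j : ℚ) : ℝ) = ((A (e.symm (e i)) j : ℚ) : ℝ)
    rw [e.symm_apply_apply]
  rw [e1]
  exact h5

theorem li_real (hT : Tri V om ε) {Δ : Finset ι} (hΔ : Δ ∈ maxS V om ε) :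
    LinearIndependent ℝ (fun v : {v // v ∈ Δ} => rV V v) := by
  obtain ⟨hc, k, hk1, hk2⟩ := (mem_maxS Δ).1 hΔ
  have h1 := hT.simple k hk1
  have h2 : LinearIndependent ℚ (fun v : {v // v ∈ Δ} => qv V v) := by
    have := h1.comp (fun v : {v // v ∈ Δ} =>
      (⟨v.1, (hk2 v.1).1 v.2⟩ : {i // dt k (qv V i) = 1 - ε * om i}))
      (by
        intro a b hab
        have h3 : a.1 = b.1 := congrArg (fun z : {i // dt k (qv V i) = 1 - ε * om i} => z.1) hab
        exact Subtype.ext h3)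
    exact this
  have h3 := li_cast (by rw [Fintype.card_coe, hc]) _ h2
  have e1 : (fun v : {v // v ∈ Δ} => rV V v) = fun v j => ((qv V v.1 j : ℚ) : ℝ) := by
    funext v j
    simp [rV, qv]
  rw [e1]
  exact h3

/-- the points of the open simplex, coefficients indexed by `ι` -/
def osx (V : ι → Fin n →₀ ℕ) (F : Finset ι) (N : ℕ) (x : Fin n → ℝ) : Prop :=
  ∃ c : ι → ℝ, (∀ v ∈ F, 0 < c v) ∧ ∑ v ∈ F, c v = N ∧ ∀ j, x j = ∑ v ∈ F, c v * (V v j : ℝ)

/-- `cover` -/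
theorem cover_face (hn : 0 < n) (hV0 : ∀ i, V i ≠ 0) (hT : Tri V om ε)
    (hcov : ∀ x : Fin n → ℝ, (∀ j, 0 ≤ x j) → ∃ Δ ∈ maxS V om ε, ∃ c : ι → ℝ, (∀ v, 0 ≤ c v) ∧
      (∀ v, v ∉ Δ → c v = 0) ∧ ∀ j, x j = ∑ v, c v * (V v j : ℝ))
    (G : Finset ι) (hG : G ∈ facesI V) (N : ℕ) (hN : 0 < N) (x : Fin n → ℝ)
    (y : Fin n → ℝ) (hy : y ∈ convexHull ℝ (rv '' (ex V G : Set (Fin n →₀ ℕ))))
    (hxy : ∀ j, x j = N * y j) :
    ∃ F ∈ fcs (maxS V om ε), F ⊆ G ∧ F.Nonempty ∧ osx V F N x := by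
  classical
  rw [facesI, Finset.mem_filter] at hG
  obtain ⟨-, w, hw, hwG⟩ := hG
  -- `y` is nonnegative and lies on the face
  obtain ⟨g, hg⟩ : G.Nonempty := by
    by_contra hne
    rw [Finset.not_nonempty_iff_eq_empty] at hne
    subst hne
    simp [ex] at hy
  set m : ℝ := ∑ j, (w j : ℝ) * (V g j : ℝ) with hm
  have hwV : ∀ i, m ≤ ∑ j, (w j : ℝ) * (V i j : ℝ) := by
    intro i
    have := (hwG g).1 hg i
    rw [hm]; exact_mod_cast this
  have hwV' : ∀ i, i ∈ G → ∑ j, (w j : ℝ) * (V i j : ℝ) = m := by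
    intro i hi
    refine le_antisymm ?_ (hwV i)
    have := (hwG i).1 hi g
    rw [hm]; exact_mod_cast this
  have hwV'' : ∀ i, ∑ j, (w j : ℝ) * (V i j : ℝ) = m → i ∈ G := by
    intro i hi
    rw [hwG i]
    intro i'
    have := hwV i'
    rw [← hi] at this
    exact_mod_cast this
  have hm0 : 0 < m := by
    obtain ⟨j, hj⟩ : ∃ j, V g j ≠ 0 := by
      by_contra hcon
      push Not at hcon
      exact hV0 g (Finsupp.ext hcon)
    rw [hm]
    have h1 : ∀ j ∈ (Finset.univ : Finset (Fin n)), 0 ≤ (w j : ℝ) * (V g j : ℝ) :=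
      fun j _ => by positivity
    refine Finset.sum_pos' h1 ⟨j, Finset.mem_univ _, ?_⟩
    have h2 : (0 : ℝ) < w j := by exact_mod_cast hw j
    have h3 : (0 : ℝ) < V g j := by exact_mod_cast Nat.pos_of_ne_zero hj
    positivity
  have key : ∀ k : Fin n → ℝ, (∀ i, 1 ≤ ∑ j, k j * (V i j : ℝ)) →
      (∀ j, 0 ≤ y j) ∧ ∑ j, (w j : ℝ) * y j = m ∧ 1 ≤ ∑ j, k j * y j := by
    intro k hk
    have hconvex : Convex ℝ {z : Fin n → ℝ | (∀ j, 0 ≤ z j) ∧ ∑ j, (w j : ℝ) * z j = m ∧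
        1 ≤ ∑ j, k j * z j} := by
      intro z hz z' hz' a b ha hb hab
      refine ⟨fun j => ?_, ?_, ?_⟩
      · have := hz.1 j; have := hz'.1 j
        simp only [Pi.add_apply, Pi.smul_apply, smul_eq_mul]
        positivity
      · have e : ∑ j, (w j : ℝ) * (a • z + b • z') j =
            a * ∑ j, (w j : ℝ) * z j + b * ∑ j, (w j : ℝ) * z' j := by
          rw [Finset.mul_sum, Finset.mul_sum, ← Finset.sum_add_distrib]
          refine Finset.sum_congr rfl fun j _ => ?_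
          simp only [Pi.add_apply, Pi.smul_apply, smul_eq_mul]; ring
        rw [e, hz.2.1, hz'.2.1, ← add_mul, hab, one_mul]
      · have e : ∑ j, k j * (a • z + b • z') j =
            a * ∑ j, k j * z j + b * ∑ j, k j * z' j := by
          rw [Finset.mul_sum, Finset.mul_sum, ← Finset.sum_add_distrib]
          refine Finset.sum_congr rfl fun j _ => ?_
          simp only [Pi.add_apply, Pi.smul_apply, smul_eq_mul]; ring
        rw [e]
        have h1 := mul_le_mul_of_nonneg_left hz.2.2 ha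
        have h2 := mul_le_mul_of_nonneg_left hz'.2.2 hb
        linarith
    refine convexHull_min ?_ hconvex hy
    rintro _ ⟨u, hu, rfl⟩
    rw [Finset.mem_coe, ex, Finset.mem_image] at hu
    obtain ⟨i, hi, rfl⟩ := hu
    refine ⟨fun j => by simp [rv], ?_, ?_⟩
    · simpa [rv] using hwV' i hi
    · simpa [rv] using hk i
  -- a cone containing `x`
  have hNR : (0 : ℝ) < N := by exact_mod_cast hN
  have hconv1 : ∃ k : Fin n → ℝ, ∀ i, 1 ≤ ∑ j, k j * (V i j : ℝ) := by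
    refine ⟨fun _ => 1, fun i => ?_⟩
    obtain ⟨j, hj⟩ : ∃ j, V i j ≠ 0 := by
      by_contra hcon
      push Not at hcon
      exact hV0 i (Finsupp.ext hcon)
    have h1 : (1 : ℝ) ≤ V i j := by exact_mod_cast Nat.one_le_iff_ne_zero.2 hj
    calc (1 : ℝ) ≤ 1 * (V i j : ℝ) := by rw [one_mul]; exact h1
      _ ≤ ∑ j, 1 * (V i j : ℝ) := Finset.single_le_sum (f := fun j => 1 * (V i j : ℝ))
        (fun j _ => by positivity) (Finset.mem_univ j)
  obtain ⟨k1, hk1⟩ := hconv1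
  have hy0 := (key k1 hk1).1
  obtain ⟨Δ, hΔ, c, hc0, hcΔ, hxc⟩ := hcov x (fun j => by
    rw [hxy]; exact mul_nonneg hNR.le (hy0 j))
  obtain ⟨hcard, k, hk, hkΔ⟩ := (mem_maxS Δ).1 hΔ
  obtain ⟨k', hk', hk'Δ⟩ := hT.compat k Δ hcard hk hkΔ
  have hk'R : ∀ i, 1 ≤ ∑ j, ((k' j : ℚ) : ℝ) * (V i j : ℝ) := by
    intro i
    have h1 := hk' i
    rw [dt_qv] at h1
    exact_mod_cast h1
  have hk'R' : ∀ i ∈ Δ, ∑ j, ((k' j : ℚ) : ℝ) * (V i j : ℝ) = 1 := by
    intro i hi
    have h1 := hk'Δ i hi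
    rw [dt_qv] at h1
    exact_mod_cast h1
  obtain ⟨-, hyw, hyk⟩ := key (fun j => ((k' j : ℚ) : ℝ)) hk'R
  -- exchange of sums
  have exch : ∀ a : Fin n → ℝ, ∑ j, a j * x j = ∑ v, c v * ∑ j, a j * (V v j : ℝ) := by
    intro a
    simp_rw [hxc, Finset.mul_sum]
    rw [Finset.sum_comm]
    refine Finset.sum_congr rfl fun v _ => Finset.sum_congr rfl fun j _ => by ring
  have hsum1 : (N : ℝ) ≤ ∑ v, c v := by
    have e1 : ∑ j, ((k' j : ℚ) : ℝ) * x j = ∑ v, c v := by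
      rw [exch]
      refine Finset.sum_congr rfl fun v _ => ?_
      by_cases hv : v ∈ Δ
      · rw [hk'R' v hv, mul_one]
      · rw [hcΔ v hv, zero_mul]
    have e2 : ∑ j, ((k' j : ℚ) : ℝ) * x j = N * ∑ j, ((k' j : ℚ) : ℝ) * y j := by
      rw [Finset.mul_sum]
      refine Finset.sum_congr rfl fun j _ => ?_
      rw [hxy]; ring
    rw [← e1, e2]
    have := mul_le_mul_of_nonneg_left hyk hNR.le
    linarith
  have hsum2 : N * m = ∑ v, c v * ∑ j, (w j : ℝ) * (V v j : ℝ) := by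
    rw [← exch, ← hyw, Finset.mul_sum]
    refine Finset.sum_congr rfl fun j _ => ?_
    rw [hxy]; ring
  have hsum3 : ∑ v, c v * ((∑ j, (w j : ℝ) * (V v j : ℝ)) - m) = N * m - (∑ v, c v) * m := by
    rw [hsum2, Finset.sum_mul, ← Finset.sum_sub_distrib]
    refine Finset.sum_congr rfl fun v _ => by ring
  have hterm : ∀ v ∈ (Finset.univ : Finset ι),
      0 ≤ c v * ((∑ j, (w j : ℝ) * (V v j : ℝ)) - m) := fun v _ =>
    mul_nonneg (hc0 v) (by linarith [hwV v])
  have hsum4 : ∑ v, c v * ((∑ j, (w j : ℝ) * (V v j : ℝ)) - m) = 0 := by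
    refine le_antisymm ?_ (Finset.sum_nonneg hterm)
    rw [hsum3]
    have := mul_le_mul_of_nonneg_right hsum1 hm0.le
    linarith
  have hsum5 : ∑ v, c v = N := by
    refine le_antisymm ?_ hsum1
    have h1 : (∑ v, c v) * m = N * m := by linarith [hsum3, hsum4]
    exact le_of_mul_le_mul_right h1.le hm0
  have hcG : ∀ v, v ∉ G → c v = 0 := by
    intro v hv
    have h1 := (Finset.sum_eq_zero_iff_of_nonneg hterm).1 hsum4 v (Finset.mem_univ v)
    rcases mul_eq_zero.1 h1 with h2 | h2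
    · exact h2
    · exact absurd (hwV'' v (by linarith)) hv
  have hsupp : ∀ (f : ι → ℝ), ∑ v ∈ (Finset.univ.filter fun v => c v ≠ 0), c v * f v =
      ∑ v, c v * f v := by
    intro f
    refine Finset.sum_subset (Finset.filter_subset _ _) fun v _ hv => ?_
    rw [Finset.mem_filter, not_and, not_not] at hv
    rw [hv (Finset.mem_univ v), zero_mul]
  have hsumF : ∑ v ∈ (Finset.univ.filter fun v => c v ≠ 0), c v = N := by
    have := hsupp fun _ => 1
    simpa [hsum5] using this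
  refine ⟨Finset.univ.filter fun v => c v ≠ 0, ?_, ?_, ?_, c, ?_, hsumF, ?_⟩
  · rw [fcs, Finset.mem_biUnion]
    refine ⟨Δ, hΔ, ?_⟩
    rw [Finset.mem_powerset]
    intro v hv
    rw [Finset.mem_filter] at hv
    by_contra hcon
    exact hv.2 (hcΔ v hcon)
  · intro v hv
    rw [Finset.mem_filter] at hv
    by_contra hcon
    exact hv.2 (hcG v hcon)
  · by_contra hne
    rw [Finset.not_nonempty_iff_eq_empty] at hne
    rw [hne, Finset.sum_empty] at hsumF
    linarith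
  · intro v hv
    rw [Finset.mem_filter] at hv
    exact lt_of_le_of_ne (hc0 v) (Ne.symm hv.2)
  · intro j
    rw [hxc j, hsupp]

/-- the open simplices are contained in the face -/
theorem osx_mem {G F : Finset ι} (hFG : F ⊆ G) {N : ℕ} (hN : 0 < N) {x : Fin n → ℝ}
    (hx : osx V F N x) : ∃ y ∈ convexHull ℝ (rv '' (ex V G : Set (Fin n →₀ ℕ))),
      ∀ j, x j = N * y j := by
  classical
  obtain ⟨c, hc, hsum, hxc⟩ := hx
  have hNR : (0 : ℝ) < N := by exact_mod_cast hN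
  refine ⟨∑ v ∈ F, (c v / N) • rV V v, ?_, ?_⟩
  · refine (convex_convexHull ℝ _).sum_mem (fun v hv => (div_pos (hc v hv) hNR).le) ?_ ?_
    · rw [← Finset.sum_div, hsum, div_self hNR.ne']
    · intro v hv
      refine subset_convexHull ℝ _ ⟨V v, ?_, rfl⟩
      rw [Finset.mem_coe, ex]
      exact Finset.mem_image_of_mem V (hFG hv)
  · intro j
    rw [hxc j, Finset.sum_apply, Finset.mul_sum]
    refine Finset.sum_congr rfl fun v _ => ?_
    simp only [Pi.smul_apply, smul_eq_mul, rV]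
    field_simp

/-- the open simplices are disjoint -/
theorem osx_disj (hT : Tri V om ε) {F F' : Finset ι} (hF : F ∈ fcs (maxS V om ε))
    (hF' : F' ∈ fcs (maxS V om ε)) {N : ℕ} {x : Fin n → ℝ} (hx : osx V F N x)
    (hx' : osx V F' N x) : F = F' := by
  classical
  rw [fcs, Finset.mem_biUnion] at hF hF'
  obtain ⟨Δ, hΔ, hFΔ⟩ := hF
  obtain ⟨Δ', hΔ', hFΔ'⟩ := hF'
  rw [Finset.mem_powerset] at hFΔ hFΔ'
  obtain ⟨c, hc, hsum, hxc⟩ := hx
  obtain ⟨c', hc', hsum', hxc'⟩ := hx'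
  obtain ⟨hcard, k, hk, hkΔ⟩ := (mem_maxS Δ).1 hΔ
  obtain ⟨hcard', k', hk', hkΔ'⟩ := (mem_maxS Δ').1 hΔ'
  set h : ι → ℝ := fun i => ((1 - ε * om i : ℚ) : ℝ) with hh
  have hkR : ∀ i, h i ≤ ∑ j, ((k j : ℚ) : ℝ) * (V i j : ℝ) := by
    intro i
    have h1 := hk i
    rw [dt_qv] at h1
    show ((1 - ε * om i : ℚ) : ℝ) ≤ _
    exact_mod_cast h1
  have hkR' : ∀ i, h i ≤ ∑ j, ((k' j : ℚ) : ℝ) * (V i j : ℝ) := by
    intro i
    have h1 := hk' i
    rw [dt_qv] at h1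
    show ((1 - ε * om i : ℚ) : ℝ) ≤ _
    exact_mod_cast h1
  have hkeq : ∀ i, i ∈ Δ ↔ ∑ j, ((k j : ℚ) : ℝ) * (V i j : ℝ) = h i := by
    intro i
    rw [hkΔ i, dt_qv]
    show _ ↔ _ = ((1 - ε * om i : ℚ) : ℝ)
    constructor
    · intro h1; exact_mod_cast h1
    · intro h1; exact_mod_cast h1
  have hkeq' : ∀ i, i ∈ Δ' ↔ ∑ j, ((k' j : ℚ) : ℝ) * (V i j : ℝ) = h i := by
    intro i
    rw [hkΔ' i, dt_qv]
    show _ ↔ _ = ((1 - ε * om i : ℚ) : ℝ)
    constructor
    · intro h1; exact_mod_cast h1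
    · intro h1; exact_mod_cast h1
  have exch : ∀ (F : Finset ι) (c : ι → ℝ) (a : Fin n → ℝ),
      (∀ j, x j = ∑ v ∈ F, c v * (V v j : ℝ)) →
      ∑ j, a j * x j = ∑ v ∈ F, c v * ∑ j, a j * (V v j : ℝ) := by
    intro F c a hxc
    simp_rw [hxc, Finset.mul_sum]
    rw [Finset.sum_comm]
    refine Finset.sum_congr rfl fun v _ => Finset.sum_congr rfl fun j _ => by ring
  have a1 : ∑ j, ((k j : ℚ) : ℝ) * x j = ∑ v ∈ F, c v * h v := by
    rw [exch F c _ hxc]
    exact Finset.sum_congr rfl fun v hv => by rw [(hkeq v).1 (hFΔ hv)]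
  have a2 : ∑ v ∈ F', c' v * h v ≤ ∑ j, ((k j : ℚ) : ℝ) * x j := by
    rw [exch F' c' _ hxc']
    exact Finset.sum_le_sum fun v hv => mul_le_mul_of_nonneg_left (hkR v) (hc' v hv).le
  have a3 : ∑ j, ((k' j : ℚ) : ℝ) * x j = ∑ v ∈ F', c' v * h v := by
    rw [exch F' c' _ hxc']
    exact Finset.sum_congr rfl fun v hv => by rw [(hkeq' v).1 (hFΔ' hv)]
  have a4 : ∑ v ∈ F, c v * h v ≤ ∑ j, ((k' j : ℚ) : ℝ) * x j := by
    rw [exch F c _ hxc]
    exact Finset.sum_le_sum fun v hv => mul_le_mul_of_nonneg_left (hkR' v) (hc v hv).le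
  have a5 : ∑ v ∈ F', c' v * (∑ j, ((k j : ℚ) : ℝ) * (V v j : ℝ) - h v) = 0 := by
    have e : ∑ v ∈ F', c' v * (∑ j, ((k j : ℚ) : ℝ) * (V v j : ℝ) - h v) =
        ∑ j, ((k j : ℚ) : ℝ) * x j - ∑ v ∈ F', c' v * h v := by
      rw [exch F' c' _ hxc', ← Finset.sum_sub_distrib]
      exact Finset.sum_congr rfl fun v _ => by ring
    rw [e]; linarith
  have a6 : F' ⊆ Δ := by
    intro v hv
    have hterm : ∀ v ∈ F', 0 ≤ c' v * (∑ j, ((k j : ℚ) : ℝ) * (V v j : ℝ) - h v) := fun v hv =>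
      mul_nonneg (hc' v hv).le (by linarith [hkR v])
    have h1 := (Finset.sum_eq_zero_iff_of_nonneg hterm).1 a5 v hv
    rcases mul_eq_zero.1 h1 with h2 | h2
    · exact absurd h2 (hc' v hv).ne'
    · exact (hkeq v).2 (by linarith)
  -- linear independence
  have hli := li_real hT hΔ
  have hsumΔ : ∀ (F : Finset ι), F ⊆ Δ → ∀ (c : ι → ℝ) (j : Fin n),
      ∑ v ∈ F, c v * (V v j : ℝ) = ∑ v : {v // v ∈ Δ}, (if v.1 ∈ F then c v else 0) * rV V v j := by
    intro F hFΔ c j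
    rw [Finset.sum_coe_sort Δ (fun v => (if v ∈ F then c v else 0) * rV V v j)]
    rw [← Finset.sum_subset hFΔ]
    · refine Finset.sum_congr rfl fun v hv => ?_
      rw [if_pos hv]; rfl
    · intro v _ hv
      rw [if_neg hv, zero_mul]
  have hzero : ∑ v : {v // v ∈ Δ}, ((if v.1 ∈ F then c v else 0) - (if v.1 ∈ F' then c' v else 0)) •
      rV V v = 0 := by
    funext j
    rw [Finset.sum_apply]
    simp only [Pi.smul_apply, smul_eq_mul, sub_mul, Finset.sum_sub_distrib, Pi.zero_apply]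
    rw [← hsumΔ F hFΔ c j, ← hsumΔ F' a6 c' j, ← hxc j, ← hxc' j, sub_self]
  have hcoef := Fintype.linearIndependent_iff.1 hli _ hzero
  ext v
  constructor
  · intro hv
    by_contra hv'
    have := hcoef ⟨v, hFΔ hv⟩
    simp only [hv, hv', if_true, if_false, sub_zero] at this
    exact (hc v hv).ne' this
  · intro hv
    by_contra hv'
    have := hcoef ⟨v, a6 hv⟩
    simp only [hv, hv', if_true, if_false, zero_sub, neg_eq_zero] at this
    exact (hc' v hv).ne' this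

omit [Fintype ι] in
theorem osx_iff (hV : Function.Injective V) (F : Finset ι) (N : ℕ) (x : Fin n → ℝ) :
    (∃ c : (Fin n →₀ ℕ) → ℝ, (∀ v ∈ ex V F, 0 < c v) ∧ ∑ v ∈ ex V F, c v = N ∧
      ∀ i, x i = ∑ v ∈ ex V F, c v * (v i : ℝ)) ↔ osx V F N x := by
  classical
  constructor
  · rintro ⟨c, h1, h2, h3⟩
    refine ⟨fun v => c (V v), fun v hv => h1 _ (Finset.mem_image_of_mem V hv), ?_, fun j => ?_⟩
    · rw [← h2, ex, Finset.sum_image fun a _ b _ h => hV h]
    · rw [h3 j, ex, Finset.sum_image fun a _ b _ h => hV h]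
  · rintro ⟨c, h1, h2, h3⟩
    refine ⟨Function.extend V c 0, ?_, ?_, fun j => ?_⟩
    · intro v hv
      rw [ex, Finset.mem_image] at hv
      obtain ⟨i, hi, rfl⟩ := hv
      rw [hV.extend_apply]
      exact h1 i hi
    · rw [ex, Finset.sum_image fun a _ b _ h => hV h, ← h2]
      exact Finset.sum_congr rfl fun v _ => hV.extend_apply _ _ _
    · rw [ex, Finset.sum_image fun a _ b _ h => hV h, h3 j]
      exact Finset.sum_congr rfl fun v _ => by rw [hV.extend_apply]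

theorem li_face (hT : Tri V om ε) {F : Finset ι} (hF : F ∈ fcs (maxS V om ε)) :
    LinearIndependent ℝ (fun v : {v // v ∈ F} => rV V v) := by
  classical
  rw [fcs, Finset.mem_biUnion] at hF
  obtain ⟨Δ, hΔ, hFΔ⟩ := hF
  rw [Finset.mem_powerset] at hFΔ
  exact (li_real hT hΔ).comp (fun v : {v // v ∈ F} => (⟨v.1, hFΔ v.2⟩ : {v // v ∈ Δ}))
    (by
      intro a b hab
      have h3 : a.1 = b.1 := congrArg (fun z : {v // v ∈ Δ} => z.1) hab
      exact Subtype.ext h3)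

theorem li_ex (hT : Tri V om ε) {F : Finset ι} (hF : F ∈ fcs (maxS V om ε)) :
    LinearIndependent ℝ (fun v : {v // v ∈ ex V F} => rv v.1) := by
  classical
  have h1 : ∀ u : {v // v ∈ ex V F}, ∃ i : {v // v ∈ F}, V i.1 = u.1 := by
    rintro ⟨u, hu⟩
    rw [ex, Finset.mem_image] at hu
    obtain ⟨i, hi, rfl⟩ := hu
    exact ⟨⟨i, hi⟩, rfl⟩
  choose g hg using h1
  have h2 := (li_face hT hF).comp g (by
    intro a b hab
    have h3 := hg a
    rw [hab, hg b] at h3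
    exact Subtype.ext h3.symm)
  have e1 : (fun v : {v // v ∈ ex V F} => rv v.1) = (fun v : {v // v ∈ F} => rV V v) ∘ g := by
    funext u j
    show ((u.1 j : ℕ) : ℝ) = ((V (g u).1 j : ℕ) : ℝ)
    rw [hg u]
  rw [e1]
  exact h2

theorem card_le (hT : Tri V om ε) {F G : Finset ι} (hF : F ∈ fcs (maxS V om ε))
    (hne : F.Nonempty) (hFG : F ⊆ G) : F.card ≤ fdim (ex V G) + 1 := by
  classical
  have h1 := (li_face hT hF).affineIndependent
  have hpos := hne.card_pos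
  have h2 := h1.finrank_vectorSpan (n := F.card - 1) (by rw [Fintype.card_coe]; omega)
  have h3 : Set.range (fun v : {v // v ∈ F} => rV V v) ⊆
      rv '' (ex V G : Set (Fin n →₀ ℕ)) := by
    rintro _ ⟨v, rfl⟩
    exact ⟨V v.1, Finset.mem_coe.2 (Finset.mem_image_of_mem V (hFG v.2)), rfl⟩
  have h4 := Submodule.finrank_mono (vectorSpan_mono ℝ h3)
  rw [h2] at h4
  rw [fdim]
  omega

/-- VOL2 with the modules T1a and VOL1 as hypotheses -/
theorem svol_eq_of (hn : 0 < n) (hV : Function.Injective V) (hV0 : ∀ i, V i ≠ 0)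
    (hT : Tri V om ε)
    (hcov : ∀ x : Fin n → ℝ, (∀ j, 0 ≤ x j) → ∃ Δ ∈ maxS V om ε, ∃ c : ι → ℝ, (∀ v, 0 ≤ c v) ∧
      (∀ v, v ∉ Δ → c v = 0) ∧ ∀ j, x j = ∑ v, c v * (V v j : ℝ))
    (hos : ∀ (F : Finset (Fin n →₀ ℕ)), F.Nonempty →
      LinearIndependent ℝ (fun v : {v // v ∈ F} => rv v.1) →
      (∀ N : ℕ, Finite {x : Fin n → ℤ // ∃ c : (Fin n →₀ ℕ) → ℝ, (∀ v ∈ F, 0 < c v) ∧
        ∑ v ∈ F, c v = N ∧ ∀ i, (x i : ℝ) = ∑ v ∈ F, c v * v i}) ∧
      Tendsto (fun N : ℕ => ((F.card - 1).factorial : ℝ) *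
        Nat.card {x : Fin n → ℤ // ∃ c : (Fin n →₀ ℕ) → ℝ, (∀ v ∈ F, 0 < c v) ∧
          ∑ v ∈ F, c v = N ∧ ∀ i, (x i : ℝ) = ∑ v ∈ F, c v * v i} / (N : ℝ) ^ (F.card - 1))
        atTop (𝓝 (nvol F)))
    (G : Finset ι) (hG : G ∈ facesI V) :
    ∑ F ∈ fcs (maxS V om ε) with F ⊆ G ∧ F.card = fdim (ex V G) + 1, (nvol (ex V F) : ℝ) =
      svol (ex V G) := by
  classical
  set 𝒱 := maxS V om ε with h𝒱
  set d := fdim (ex V G) with hd
  set I : Finset (Finset ι) := (fcs 𝒱).filter fun F => F ⊆ G ∧ F.Nonempty with hI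
  have hIm : ∀ F ∈ I, F ∈ fcs 𝒱 ∧ F ⊆ G ∧ F.Nonempty := fun F hF => by
    rw [hI, Finset.mem_filter] at hF; exact hF
  -- the number of points of an open simplex
  set P : Finset ι → ℕ → Type := fun F N => {x : Fin n → ℤ // ∃ c : (Fin n →₀ ℕ) → ℝ,
    (∀ v ∈ ex V F, 0 < c v) ∧ ∑ v ∈ ex V F, c v = N ∧
      ∀ i, (x i : ℝ) = ∑ v ∈ ex V F, c v * v i} with hP
  have hfin : ∀ F ∈ I, ∀ N, Finite (P F N) := by
    intro F hF N
    obtain ⟨h1, h2, h3⟩ := hIm F hF
    exact (hos (ex V F) (h3.image V) (li_ex hT h1)).1 N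
  have hcount : ∀ N : ℕ, 0 < N → npts (ex V G) N = ∑ F ∈ I, Nat.card (P F N) := by
    intro N hN
    rw [npts, ← Finset.sum_coe_sort I fun F => Nat.card (P F N)]
    haveI : ∀ F : I, Finite (P F N) := fun F => hfin F.1 F.2 N
    rw [← Nat.card_sigma]
    refine (Nat.card_congr (Equiv.ofBijective (fun z : Σ F : I, P F N =>
      (⟨z.2.1, ?_⟩ : {x : Fin n → ℤ // ∃ y ∈ convexHull ℝ (rv '' (ex V G : Set (Fin n →₀ ℕ))),
        ∀ i, (x i : ℝ) = N * y i})) ?_)).symm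
    · have h1 := (osx_iff hV z.1.1 N fun i => (z.2.1 i : ℝ)).1 z.2.2
      exact osx_mem (hIm _ z.1.2).2.1 hN h1
    · constructor
      · rintro ⟨⟨F, hF⟩, ⟨x, hx⟩⟩ ⟨⟨F', hF'⟩, ⟨x', hx'⟩⟩ h
        have hxx : x = x' := congrArg (fun z : {x : Fin n → ℤ // ∃ y ∈ convexHull ℝ
          (rv '' (ex V G : Set (Fin n →₀ ℕ))), ∀ i, (x i : ℝ) = N * y i} => z.1) h
        subst hxx
        have hFF : F = F' := osx_disj hT (hIm F hF).1 (hIm F' hF').1
          ((osx_iff hV F N fun i => (x i : ℝ)).1 hx) ((osx_iff hV F' N fun i => (x i : ℝ)).1 hx')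
        subst hFF
        rfl
      · rintro ⟨x, y, hy, hxy⟩
        obtain ⟨F, hF, hFG, hne, ho⟩ := cover_face hn hV0 hT hcov G hG N hN
          (fun i => (x i : ℝ)) y hy hxy
        refine ⟨⟨⟨F, ?_⟩, ⟨x, (osx_iff hV F N fun i => (x i : ℝ)).2 ho⟩⟩, rfl⟩
        rw [hI, Finset.mem_filter]
        exact ⟨hF, hFG, hne⟩
  -- the limits
  have hcardex : ∀ F : Finset ι, (ex V F).card = F.card := fun F => by
    rw [ex, Finset.card_image_of_injective _ hV]
  have hlim : ∀ F ∈ I, Tendsto (fun N : ℕ => (d.factorial : ℝ) * Nat.card (P F N) / (N : ℝ) ^ d)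
      atTop (𝓝 (if F.card = d + 1 then (nvol (ex V F) : ℝ) else 0)) := by
    intro F hF
    obtain ⟨h1, h2, h3⟩ := hIm F hF
    have h4 := (hos (ex V F) (h3.image V) (li_ex hT h1)).2
    rw [hcardex] at h4
    have h5 := card_le hT h1 h3 h2
    rw [← hd] at h5
    have h6 := h3.card_pos
    by_cases hc : F.card = d + 1
    · rw [if_pos hc]
      rw [hc, Nat.add_sub_cancel] at h4
      exact h4
    · rw [if_neg hc]
      have hlt : F.card - 1 < d := by omega
      set e := F.card - 1 with he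
      have h7 : Tendsto (fun N : ℕ => (N : ℝ) ^ e / (N : ℝ) ^ d) atTop (𝓝 0) := by
        have h8 : Tendsto (fun N : ℕ => ((N : ℝ) ^ (d - e))⁻¹) atTop (𝓝 0) := by
          apply Filter.Tendsto.inv_tendsto_atTop
          exact (tendsto_pow_atTop (by omega)).comp tendsto_natCast_atTop_atTop
        refine h8.congr' ?_
        filter_upwards [eventually_gt_atTop 0] with N hN
        have hN' : (N : ℝ) ≠ 0 := by exact_mod_cast hN.ne'
        have h9 : (N : ℝ) ^ d = (N : ℝ) ^ e * (N : ℝ) ^ (d - e) := by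
          rw [← pow_add]; congr 1; omega
        rw [h9]
        field_simp
      have h8 := (h4.mul h7).const_mul ((d.factorial : ℝ) / (e.factorial : ℝ))
      rw [mul_zero, mul_zero] at h8
      refine h8.congr' ?_
      filter_upwards [eventually_gt_atTop 0] with N hN
      have hN' : (N : ℝ) ≠ 0 := by exact_mod_cast hN.ne'
      have he' : (e.factorial : ℝ) ≠ 0 := by exact_mod_cast e.factorial_ne_zero
      show (d.factorial : ℝ) / e.factorial * ((e.factorial : ℝ) * Nat.card (P F N) / (N : ℝ) ^ e *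
        ((N : ℝ) ^ e / (N : ℝ) ^ d)) = _
      field_simp
  have hsum := tendsto_finsetSum I hlim
  have hfinal : Tendsto (fun N : ℕ => ((fdim (ex V G)).factorial : ℝ) * npts (ex V G) N /
      (N : ℝ) ^ fdim (ex V G)) atTop
      (𝓝 (∑ F ∈ I, if F.card = d + 1 then (nvol (ex V F) : ℝ) else 0)) := by
    refine hsum.congr' ?_
    filter_upwards [eventually_gt_atTop 0] with N hN
    rw [hcount N hN]
    push_cast
    rw [Finset.mul_sum, Finset.sum_div]
  rw [svol, hfinal.limUnder_eq, ← Finset.sum_filter]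
  refine Finset.sum_congr ?_ fun _ _ => rfl
  ext F
  rw [hI, Finset.mem_filter, Finset.mem_filter, Finset.mem_filter]
  constructor
  · rintro ⟨h1, h2, h3⟩
    refine ⟨⟨h1, h2, ?_⟩, h3⟩
    rw [← Finset.card_pos, h3]
    omega
  · rintro ⟨⟨h1, h2, -⟩, h3⟩
    exact ⟨h1, h2, h3⟩

end Pool.Agent.helper77.DL
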